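import Pool.Agent.W475.BH.Stm

/-! Project BH of helper475: Fubini for circle averages over a box. -/

set_option autoImplicit false

namespace Pool.Agent.W748.BH

open Complex MeasureTheory Filter Topology Set
open Pool.Agent.W475.BH
open scoped ENNReal

lemma isClosed_Bx (a b c d : ℝ) : IsClosed (Bx a b c d) := by
  have h1 : IsClosed {z : ℂ | a ≤ z.re} := isClosed_le continuous_const Complex.continuous_re
  have h2 : IsClosed {z : ℂ | z.re ≤ b} := isClosed_le Complex.continuous_re continuous_const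
  have h3 : IsClosed {z : ℂ | c ≤ z.im} := isClosed_le continuous_const Complex.continuous_im
  have h4 : IsClosed {z : ℂ | z.im ≤ d} := isClosed_le Complex.continuous_im continuous_const
  have : Bx a b c d = {z : ℂ | a ≤ z.re} ∩ ({z : ℂ | z.re ≤ b} ∩ ({z : ℂ | c ≤ z.im} ∩ {z : ℂ | z.im ≤ d})) := by
    ext z; simp [Bx]
  rw [this]
  exact h1.inter (h2.inter (h3.inter h4))

lemma isCompact_Bx (a b c d : ℝ) : IsCompact (Bx a b c d) := by
  refine Metric.isCompact_of_isClosed_isBounded (isClosed_Bx a b c d) ?_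
  refine (Metric.isBounded_closedBall (x := (0 : ℂ)) (r := max |a| |b| + max |c| |d|)).subset fun z hz => ?_
  obtain ⟨h1, h2, h3, h4⟩ := hz
  rw [Metric.mem_closedBall, dist_zero_right]
  refine (Complex.norm_le_abs_re_add_abs_im z).trans (add_le_add ?_ ?_)
  · rw [abs_le]
    refine ⟨?_, h2.trans ((le_abs_self b).trans (le_max_right _ _))⟩
    have := neg_abs_le a
    have := le_max_left |a| |b|
    linarith
  · rw [abs_le]
    refine ⟨?_, h4.trans ((le_abs_self d).trans (le_max_right _ _))⟩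
    have := neg_abs_le c
    have := le_max_left |c| |d|
    linarith

lemma shift (F : ℂ → ℝ≥0∞) {a b c d r : ℝ} {v : ℂ} (hv : ‖v‖ ≤ r) :
    ∫⁻ w in Bx a b c d, F (w + v) ≤ ∫⁻ w in Bx (a - r) (b + r) (c - r) (d + r), F w := by
  rw [← lintegral_indicator (isClosed_Bx _ _ _ _).measurableSet,
    ← lintegral_indicator (isClosed_Bx _ _ _ _).measurableSet,
    ← lintegral_add_right_eq_self ((Bx (a - r) (b + r) (c - r) (d + r)).indicator F) v]
  refine lintegral_mono fun w => ?_
  by_cases hw : w ∈ Bx a b c d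
  · have hw2 : w + v ∈ Bx (a - r) (b + r) (c - r) (d + r) := by
      obtain ⟨h1, h2, h3, h4⟩ := hw
      have h5 := abs_le.1 ((Complex.abs_re_le_norm v).trans hv)
      have h6 := abs_le.1 ((Complex.abs_im_le_norm v).trans hv)
      refine ⟨?_, ?_, ?_, ?_⟩
      · rw [Complex.add_re]; linarith
      · rw [Complex.add_re]; linarith
      · rw [Complex.add_im]; linarith
      · rw [Complex.add_im]; linarith
    rw [indicator_of_mem hw, indicator_of_mem hw2]
  · rw [indicator_of_notMem hw]; exact zero_le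

theorem task : S_CA3F := by
  intro g hgm hgl _ a b c d r hr hab hcd
  have hpi : 0 < 2 * Real.pi := by positivity
  set B := Bx a b c d with hB
  set B' := Bx (a - r) (b + r) (c - r) (d + r) with hB'
  have hfin : ∫⁻ w in B', ‖g w‖ₑ < ⊤ := (hgl.integrableOn_isCompact (isCompact_Bx _ _ _ _)).2
  have hGm : Measurable (fun q : ℂ × ℝ => g (circleMap q.1 r q.2)) := by
    refine hgm.comp ?_
    have : Continuous (fun q : ℂ × ℝ => circleMap q.1 r q.2) := by
      unfold circleMap; fun_prop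
    exact this.measurable
  have hsh : ∀ θ : ℝ, ∫⁻ w in B, ‖g (circleMap w r θ)‖ₑ ≤ ∫⁻ w in B', ‖g w‖ₑ := by
    intro θ
    have h1 := shift (fun w => ‖g w‖ₑ) (a := a) (b := b) (c := c) (d := d) (r := r)
      (v := circleMap 0 r θ) (by rw [norm_circleMap_zero, abs_of_pos hr])
    refine le_trans (le_of_eq ?_) h1
    refine lintegral_congr fun w => ?_
    simp [circleMap]
  have hdouble : ∫⁻ w in B, ∫⁻ θ in Ioc 0 (2 * Real.pi), ‖g (circleMap w r θ)‖ₑ ≤
      ENNReal.ofReal (2 * Real.pi) * ∫⁻ w in B', ‖g w‖ₑ := by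
    rw [lintegral_lintegral_swap hGm.enorm.aemeasurable]
    calc ∫⁻ θ in Ioc 0 (2 * Real.pi), ∫⁻ w in B, ‖g (circleMap w r θ)‖ₑ
        ≤ ∫⁻ _ in Ioc 0 (2 * Real.pi), ∫⁻ w in B', ‖g w‖ₑ := lintegral_mono hsh
      _ = _ := by
          rw [setLIntegral_const, Real.volume_Ioc, sub_zero, mul_comm]
  have hint : Integrable (fun q : ℂ × ℝ => g (circleMap q.1 r q.2))
      ((volume.restrict B).prod (volume.restrict (Ioc 0 (2 * Real.pi)))) := by
    refine ⟨hGm.aestronglyMeasurable, ?_⟩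
    show ∫⁻ q : ℂ × ℝ, ‖g (circleMap q.1 r q.2)‖ₑ ∂_ < ⊤
    rw [lintegral_prod _ hGm.enorm.aemeasurable]
    exact lt_of_le_of_lt hdouble (ENNReal.mul_lt_top ENNReal.ofReal_lt_top hfin)
  have hca : ∀ w, Real.circleAverage g w r = (2 * Real.pi)⁻¹ * ∫ θ in Ioc 0 (2 * Real.pi), g (circleMap w r θ) := by
    intro w
    rw [Real.circleAverage_def, intervalIntegral.integral_of_le hpi.le, smul_eq_mul]
  have hI : IntegrableOn (fun w => Real.circleAverage g w r) B := by
    have h1 := hint.integral_prod_left.const_mul (2 * Real.pi)⁻¹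
    refine h1.congr (ae_of_all _ fun w => ?_)
    exact (hca w).symm
  refine ⟨hI, ?_⟩
  have h2 : ‖∫ w in B, Real.circleAverage g w r‖ₑ ≤ ∫⁻ w in B', ‖g w‖ₑ := by
    calc ‖∫ w in B, Real.circleAverage g w r‖ₑ ≤ ∫⁻ w in B, ‖Real.circleAverage g w r‖ₑ :=
          enorm_integral_le_lintegral_enorm _
      _ ≤ ∫⁻ w in B, ENNReal.ofReal (2 * Real.pi)⁻¹ * ∫⁻ θ in Ioc 0 (2 * Real.pi), ‖g (circleMap w r θ)‖ₑ := by
          refine lintegral_mono fun w => ?_
          rw [hca w, enorm_mul, Real.enorm_of_nonneg (by positivity : 0 ≤ (2 * Real.pi)⁻¹)]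
          exact mul_le_mul_right (enorm_integral_le_lintegral_enorm _) _
      _ = ENNReal.ofReal (2 * Real.pi)⁻¹ * ∫⁻ w in B, ∫⁻ θ in Ioc 0 (2 * Real.pi), ‖g (circleMap w r θ)‖ₑ :=
          lintegral_const_mul' _ _ ENNReal.ofReal_ne_top
      _ ≤ ENNReal.ofReal (2 * Real.pi)⁻¹ * (ENNReal.ofReal (2 * Real.pi) * ∫⁻ w in B', ‖g w‖ₑ) :=
          mul_le_mul_right hdouble _
      _ = ∫⁻ w in B', ‖g w‖ₑ := by
          rw [← mul_assoc, ← ENNReal.ofReal_mul (by positivity), inv_mul_cancel₀ hpi.ne',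
            ENNReal.ofReal_one, one_mul]
  have h3 := ENNReal.toReal_mono hfin.ne h2
  rw [toReal_enorm, ← integral_norm_eq_lintegral_enorm hgm.aestronglyMeasurable] at h3
  exact h3

end Pool.Agent.W748.BH
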